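import Pool.Agent.Q4.HC.Final

namespace Pool.Agent.Results.MP_6a3a89_al.SobolevNotGContinuous

open Q4.HC

/-- For the real reductive group `G = SL(2, ℝ) × SL(2, ℝ)` there are a Harish-Chandra module `V`
and a `G`-continuous norm `p` on `V` such that the Sobolev norm `p_2` of order `2` is not
`G`-continuous (whatever the normalization `c > 0` of the invariant form; the Killing form has
`c = 1 / 8`). -/
theorem result :
    ∃ (V : Type) (_ : AddCommGroup V) (_ : Module ℂ V) (D : Ops 2 V),
      D.IsHarishChandra ∧ ∃ p : V → ℝ, IsGContinuous D p ∧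
        ∀ c : ℝ, 0 < c → ∃ T : V →ₗ[ℂ] V, IsSobolev D c 2 T ∧
          ¬ IsGContinuous D (fun v => p (T v)) :=
  ⟨Q4.HC.V 2, inferInstance, inferInstance, Q4.HC.D 2, harish_chandra, fun v => ‖jj 2 v‖,
    sup_gcontinuous, fun c hc => ⟨sob 2 c 2, isSobolev_sob 2 c 2, not_gcontinuous c hc⟩⟩

end Pool.Agent.Results.MP_6a3a89_al.SobolevNotGContinuous
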